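import Pool.Agent.Q120.SI.Main
import Pool.Agent.Q120.SI.Entb
import Pool.Agent.Q38.SI.CEL
import Pool.Agent.Q151.SI.Mixb
import Pool.Agent.Q151.SI.Tlt
import Pool.Agent.Q299.RZ.Tail
import Pool.Agent.Q299.RZ.Kl

/-!
# Short intervals, for all random sets near Cramér's model

`A` is any random set of integers, `relEntropy μ A (block k)` the relative entropy (nats) of the law of `A ∩ [2 ^ k, 2 ^ (k + 1))` with
respect to Cramér's model. `cn S x H` is the number of elements of `S` in `(x, x + H]`. `AllModels d E`: all random sets with relative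
entropies at most `d k`, `k` large, almost surely have the property `E`. `AllLevel δ E`: the same for the random sets with relative
entropies at most `2 ^ ((δ + o(1)) k)`.
-/

set_option autoImplicit false

namespace Pool.Agent.Results.MP_685647_nt.ShortIntervalsAtAllLevels

open Filter Pool.Agent.Q120.SI Pool.Agent.Q120.SP Pool.Agent.Q120.LG

theorem jobs : Jobs where
  tail := Q299.RZ.t_TAIL
  kl := Q299.RZ.t_KL
  entb := entb
  cel := Pool.Agent.Q38.SI.t_CEL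
  det := Pool.Agent.Q252.SI.t_DET
  cnt := Pool.Agent.Q151.SI.t_CNT
  upb := Pool.Agent.Q151.SI.t_UPB
  detb := Pool.Agent.Q151.SI.t_DETB
  mixb := Pool.Agent.Q151.SI.t_MIXB
  tlt := Pool.Agent.Q151.SI.t_TLT

/-- (1) The exact threshold for Q1 (all `ε`): `d k = 2 ^ (o(k))`. (2) The exact threshold for Q1 with one `ε`, and for the existence of
elements in `(x, x + x ^ ε]`: the convergence of `∑ d k * k / 2 ^ (ε k)`. (3) In terms of the level `δ`: `δ < η`.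
(4) The exact exponent of the fluctuations in the intervals of length at most `x ^ η` is `(η + min η δ) / 2`. (5) The exact
exponent of the exceptional set for intervals of length `x ^ η` is `δ`, if `η ≤ δ`. -/
theorem result :
    (∀ d : ℕ → ℝ, (∀ k, 0 ≤ d k) →
      (AllModels d (fun S => ∀ ε : ℝ, 0 < ε → ε < 1 → Short ε S) ↔
        ∀ ε : ℝ, 0 < ε → ∀ᶠ k : ℕ in atTop, d k ≤ (2 : ℝ) ^ (ε * k)) ∧
      (AllModels d (fun S => ∀ ε : ℝ, 0 < ε → ε < 1 → Meets ε S) ↔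
        ∀ ε : ℝ, 0 < ε → ∀ᶠ k : ℕ in atTop, d k ≤ (2 : ℝ) ^ (ε * k)) ∧
      (∀ ε : ℝ, 0 < ε → ε < 1 →
        (AllModels d (Short ε) ↔ Summable (fun k : ℕ => d k * k / (2 : ℝ) ^ (ε * k))) ∧
        (AllModels d (Meets ε) ↔ Summable (fun k : ℕ => d k * k / (2 : ℝ) ^ (ε * k))))) ∧
    (∀ δ η : ℝ, 0 < η → η < 1 → (AllLevel δ (Short η) ↔ δ < η) ∧ (AllLevel δ (Meets η) ↔ δ < η)) ∧
    (∀ δ η θ : ℝ, 0 ≤ δ → 0 < η → η ≤ 1 → η / 2 ≤ θ → (AllLevel δ (Fluct η θ) ↔ (η + min η δ) / 2 ≤ θ)) ∧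
    (∀ δ η : ℝ, 0 ≤ δ → δ < 1 → 0 < η → η < 1 →
      (∀ β : ℝ, AllLevel δ (Exc η β) ↔ δ < η ∨ δ ≤ β) ∧
      (η ≤ δ → SomeLevel δ (fun S => ∀ᶠ k : ℕ in atTop, (2 : ℝ) ^ (δ * k) ≤ n0 S η k))) :=
  ⟨fun _ hd => ⟨(short_all_iff jobs hd).1, (short_all_iff jobs hd).2, fun _ h0 h1 => short_iff jobs h0 h1 hd⟩,
    fun _ _ h0 h1 => level_iff jobs h0 h1,
    fun _ _ _ h0 h1 h2 h3 => fluct_iff jobs h0 h1 h2 h3,
    fun _ _ h0 h1 h2 h3 => ⟨fun _ => (exc_iff jobs h0 h1 h2 h3).1, (exc_iff (β := 0) jobs h0 h1 h2 h3).2⟩⟩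

end Pool.Agent.Results.MP_685647_nt.ShortIntervalsAtAllLevels
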